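import Pool.Agent.W619.Y.LMain

/-! Non-vanishing for log canonical divisors on quotients of (generically finite covers of) products
of a variety and curves. -/

set_option autoImplicit false
set_option linter.overlappingInstances false

universe u

open FF IntermediateField Pool.Agent.W619.PQ Pool.Agent.W619.PL Pool.Agent.W619.TW
  Pool.Agent.W619.X Pool.Agent.W619.Y

namespace Pool.Agent.Results.MP_66b48b_ag.MixedOpenQuotients

/-- Let `Y` be a projective variety of dimension `d` with function field `M` (for instance a
point), `Z` a projective variety of dimension `d + n` with function field `L`, `F i` (`i < n`) the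
function fields of curves `C i`, with a generically finite rational map from `Z` to the product of
`Y` and the curves (`halg`), `G` a finite group of automorphisms of `L` which permutes the curves
through `σ`, `B i` a finite set of points of the quotient of `C i` by its stabilizer, such that the
`B i` are permuted by `G`, `X` a projective manifold birational to `Z / G` with a morphism to the
quotient of the product of the curves by `G`, and `D` the reduced preimage of the `B i`, a divisor
with normal crossings. Assume `LogMixedNonneg`, for instance that the fixed locus of each `g ≠ 1` in `G` on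
the product of the curves is empty or of codimension at least `6`. If some positive
multiple of `K_Y` is effective and none of the open curves `C i` minus the preimage of `B i` is the
projective line or the affine line, then some positive multiple of `K_X + D` is effective. If `Z` is
the product, and `Y` has a pseudo-effective canonical divisor only if some positive multiple of it is
effective, then `K_X + D` is pseudo-effective if and only if some positive multiple of it is
effective, and if and only if this holds for `K_Y` and none of the open curves is the projective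
line or the affine line. -/
theorem result {L : Type u} [Field L] [Algebra ℂ L] (d n : ℕ)
    (hn : Algebra.trdeg ℂ L = (d + n : ℕ))
    (M : IntermediateField ℂ L) [Algebra.EssFiniteType ℂ M] (hM : Algebra.trdeg ℂ M = d)
    (F : Fin n → IntermediateField ℂ L) (hF : ∀ i, IsFF ℂ (F i))
    (halg : Algebra.IsAlgebraic ↥(M ⊔ ⨆ i, F i) L)
    (G : Subgroup (L ≃ₐ[ℂ] L)) [Finite G] (σ : G →* Equiv.Perm (Fin n))
    (hσ : ∀ (g : G) i, ∀ z ∈ F i, (g : L ≃ₐ[ℂ] L) z ∈ F (σ g i))
    (B : ∀ i, Set (Place ℂ ↥(F i ⊓ fixedField (stb G σ i)))) (hB : ∀ i, (B i).Finite)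
    (hinv : BdInv G σ F B) (h : LogMixedNonneg G σ F B) :
    (IsEff ℂ M d (fun _ => False) → (∀ i, ¬ IsNegative inf_le_left (B i)) →
      IsEff ℂ (fixedField G) (d + n) (BdQ G σ F B)) ∧
    (M ⊔ (⨆ i, F i) = ⊤ → (IsPsef ℂ M d (fun _ => False) → IsEff ℂ M d (fun _ => False)) →
      (IsPsef ℂ (fixedField G) (d + n) (BdQ G σ F B) ↔
        IsEff ℂ (fixedField G) (d + n) (BdQ G σ F B)) ∧
      (IsPsef ℂ (fixedField G) (d + n) (BdQ G σ F B) ↔
        IsEff ℂ M d (fun _ => False) ∧ ∀ i, ¬ IsNegative inf_le_left (B i))) := by
  obtain ⟨h1, h2⟩ := nvLM d n hn M hM F halg G σ hσ B hB hinv h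
  refine ⟨h1, fun hsup hY => ?_⟩
  have h3 : IsPsef ℂ (fixedField G) (d + n) (BdQ G σ F B) →
      IsEff ℂ M d (fun _ => False) ∧ ∀ i, ¬ IsNegative inf_le_left (B i) := fun hp =>
    ⟨hY (h2 hsup hp).1, (h2 hsup hp).2.1⟩
  have h4 : IsEff ℂ (fixedField G) (d + n) (BdQ G σ F B) →
      IsPsef ℂ (fixedField G) (d + n) (BdQ G σ F B) := psef_of_eff
  exact ⟨⟨fun hp => h1 (h3 hp).1 (h3 hp).2, h4⟩, h3, fun hp => h4 (h1 hp.1 hp.2)⟩

end Pool.Agent.Results.MP_66b48b_ag.MixedOpenQuotients
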