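import Pool.Agent.W619.X.Fin

/-! Non-vanishing for log canonical divisors on quotients of (generically finite covers of)
products of curves. -/

set_option autoImplicit false
set_option linter.overlappingInstances false

universe u

open FF IntermediateField Pool.Agent.W619.PQ Pool.Agent.W619.PL Pool.Agent.W619.TW
  Pool.Agent.W619.X

namespace Pool.Agent.Results.MP_66b48b_ag.OpenProductQuotients

/-- Let `Z` be a projective variety of dimension `n` with function field `L`, `F i` (`i < n`) the
function fields of curves `C i` with rational maps `Z → C i` such that `Z → ∏ C i` is generically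
finite (`halg`), `G` a finite group of automorphisms of `L` preserving each `F i`, `B i` a finite
set of points of `C i / G`, `X` a projective manifold birational to `Z / G` with morphisms to the
curves `C i / G`, and `D` the reduced preimage of the `B i`, a divisor with normal crossings. Assume
`LogNonnegCond`, for instance that each `g ≠ 1` in `G` moves at least `6` of the curves, or that
each `g ≠ 1` moves at least `2` of the curves and each `C i / G` is irrational or has at least `4`
branch points. If none of the open curves `C i` minus the preimage of `B i` is the projective line
or the affine line, then some positive multiple of `K_X + D` is effective. If `Z` is the product of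
the curves, then `K_X + D` is pseudo-effective if and only if some positive multiple of it is
effective, and if and only if none of the open curves is the projective line or the affine line. -/
theorem result {L : Type u} [Field L] [Algebra ℂ L] (n : ℕ) (hn : Algebra.trdeg ℂ L = n)
    (F : Fin n → IntermediateField ℂ L) (hF : ∀ i, IsFF ℂ (F i))
    (halg : Algebra.IsAlgebraic ↥(⨆ i, F i) L)
    (G : Subgroup (L ≃ₐ[ℂ] L)) [Finite G] (hst : ∀ i, ∀ g ∈ G, ∀ z ∈ F i, g z ∈ F i)
    (B : ∀ i, Set (Place ℂ ↥(F i ⊓ fixedField G))) (hB : ∀ i, (B i).Finite)
    (h : LogNonnegCond G F B) :
    ((∀ i, ¬ IsNegative inf_le_left (B i)) → IsEff ℂ (fixedField G) n (QBd F G B)) ∧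
    ((⨆ i, F i = ⊤) →
      (IsPsef ℂ (fixedField G) n (QBd F G B) ↔ IsEff ℂ (fixedField G) n (QBd F G B)) ∧
      (IsEff ℂ (fixedField G) n (QBd F G B) ↔ ∀ i, ¬ IsNegative inf_le_left (B i))) :=
  nvL n hn F hF halg G hst B hB h

end Pool.Agent.Results.MP_66b48b_ag.OpenProductQuotients
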